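import Pool.Agent.Helper72.RA.ALL

set_option autoImplicit false

open MeasureTheory Filter

namespace Pool.Agent.Results.MP_717de3_co.RandomAngles

/-- The uniform probability distribution on the interval `(0, π)`. -/
noncomputable def unif : Measure ℝ :=
  (ENNReal.ofReal Real.pi)⁻¹ • (volume.restrict (Set.Ioo 0 Real.pi))

/-- The angle `θ` is realised by the finite set `X`: there are points `A, B, C` of `X` with
`A ≠ B`, `C ≠ B` and angle `θ` at `B` between `A` and `C`. -/
def Realises {d : ℕ} (X : Finset (EuclideanSpace ℝ (Fin d))) (θ : ℝ) : Prop :=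
  ∃ A ∈ X, ∃ B ∈ X, ∃ C ∈ X, A ≠ B ∧ C ≠ B ∧ EuclideanGeometry.angle A B C = θ

/-- The tuple `θ` is realisable with `m` points in `ℝ^d`. -/
def Realisable (d m : ℕ) {n : ℕ} (θ : Fin n → ℝ) : Prop :=
  ∃ X : Finset (EuclideanSpace ℝ (Fin d)), X.card = m ∧ ∀ i, Realises X (θ i)

/-- The joint distribution of `n` independent uniform angles. -/
noncomputable def law (n : ℕ) : Measure (Fin n → ℝ) := Measure.pi fun _ => unif

/-- The probability `P(d, m, n)` that `n` independent uniform angles are realisable with `m`
points in `ℝ^d`. -/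
noncomputable def P (d m n : ℕ) : ENNReal := law n {θ | Realisable d m θ}

/-- Question Q1 has the answer yes: with `m = d + 1` and
`n = d m - C(d+1, 2) - 1 = C(d+1, 2) - 1` the probability `P(d, m, n)` tends to `1`.  Moreover
(so that measurability of the event plays no role) the outer measure of the set of the
tuples which are not realisable tends to `0`. -/
theorem result :
    (∀ d : ℕ, d * (d + 1) - (d + 1).choose 2 - 1 = (d + 1).choose 2 - 1) ∧
    Tendsto (fun d : ℕ => P d (d + 1) ((d + 1).choose 2 - 1)) atTop (nhds 1) ∧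
    Tendsto (fun d : ℕ => law ((d + 1).choose 2 - 1) {θ | ¬ Realisable d (d + 1) θ})
      atTop (nhds 0) := by
  refine ⟨fun d => ?_, Pool.Agent.Helper72.RA.All.a_MAIN,
    Pool.Agent.Helper72.RA.main_compl Pool.Agent.Helper72.RA.All.a_REAL
      Pool.Agent.Helper72.RA.All.a_DET Pool.Agent.Helper72.RA.All.a_PROB⟩
  have h1 : (d + 1).choose 2 * 2 = d * (d + 1) := by
    have h := Nat.triangle_succ d
    rw [Nat.choose_two_right, Nat.add_sub_cancel]
    have h2 : 2 ∣ (d + 1) * d := by
      rw [mul_comm]; exact (Nat.even_mul_succ_self d).two_dvd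
    rw [Nat.div_mul_cancel h2, mul_comm]
  omega

end Pool.Agent.Results.MP_717de3_co.RandomAngles
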